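import Pool.Agent.Y751.SW.Lin

set_option autoImplicit false

/-!
# All windows around almost all elements of arbitrary sets of twin primes and almost primes

Let `R r` be the set of the `p` such that all prime factors of `p` and `p + 2` are larger than
`p ^ (1 / r)`; it contains, for EVERY set `M` of indices (for example the multiples of `n`, or the numbers
`k ^ 2 n`), the set of the twin primes `p_m` with `m ∈ M`. For every subset `A` of `R r`, in every interval
of length `X ^ θ`, all windows of at least polylogarithmic length around all but a small proportion of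
the expected number of elements of `A` contain the right order of elements of `A`, almost all of them in long
narrow arithmetic progressions of elements of `A` in the same window, and `A` has a constant density around
these elements at all but boundedly many scales.
-/

namespace Pool.Agent.Results.MP_be93de_nt.AllWindowsAllSubsets

open Finset Filter
open Pool.Agent.TH977.PW (N)
open Pool.Agent.Y751.SW (Nice Bad)

/-- All prime factors of `p` and `p + 2` are larger than `p ^ (1 / r)`. -/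
def R (r : ℕ) : Set ℕ :=
  {p | ∀ h ∈ ({0, 2} : Finset ℕ), ∀ q : ℕ, q.Prime → q ∣ p + h → (p : ℝ) ^ (1 / (r : ℝ)) < (q : ℝ)}

/-- The `p` of `R r` for which `p` and `p + 2` have at most `r` prime factors. -/
def P (r : ℕ) : Set ℕ :=
  {p | p ∈ R r ∧ ∀ h ∈ ({0, 2} : Finset ℕ), (p + h).primeFactorsList.length ≤ r}

/-- The twin primes `p_m`, `m ∈ M` (with `p_1 = 2`). -/
def Twins (M : Set ℕ) : Set ℕ :=
  {p | ∃ m ∈ M, p = Nat.nth Nat.Prime (m - 1) ∧ (p + 2).Prime}

theorem adm (p : ℕ) (hp : p.Prime) : ∃ m : ℕ, ∀ h ∈ ({0, 2} : Finset ℕ), ¬ p ∣ m + h := by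
  rcases lt_or_ge p 30 with h30 | h30
  · refine ⟨101, fun h hh hd => ?_⟩
    simp only [mem_insert, mem_singleton] at hh
    have := (Nat.prime_dvd_prime_iff_eq hp (by rcases hh with rfl | rfl <;> norm_num)).1 hd
    omega
  · refine ⟨5, fun h hh hd => ?_⟩
    simp only [mem_insert, mem_singleton] at hh
    have := Nat.le_of_dvd (by omega) hd
    omega

theorem result (θ : ℝ) (hθ : 0 < θ) (hθ1 : θ ≤ 1) : ∃ r₀ : ℕ, 2 ≤ r₀ ∧ ∀ r : ℕ, r₀ ≤ r →
    (∀ M : Set ℕ, Twins M ⊆ R r) ∧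
    (∃ κ c : ℝ, 0 < κ ∧ 0 < c ∧ ∀ (l : ℕ) (η : ℝ), 2 ≤ l → 0 < η → ∃ B : ℕ,
      ∀ᶠ X : ℕ in atTop, ∀ Y : ℕ, (X : ℝ) ^ θ ≤ Y → 4 * Y ≤ X →
        κ * Y / Real.log X ^ 2 ≤ N (Nice (P r) 2 l c η B X Y) X (X + Y)) ∧
    ∀ ε : ℝ, 0 < ε → ∃ c : ℝ, 0 < c ∧ ∀ (l : ℕ) (η : ℝ), 2 ≤ l → 0 < η → ∃ B : ℕ,
      ∀ᶠ X : ℕ in atTop, ∀ Y : ℕ, (X : ℝ) ^ θ ≤ Y → 4 * Y ≤ X → ∀ A : Set ℕ, A ⊆ R r →
        (N (Bad A 2 l c η B X Y) X (X + Y) : ℝ) ≤ ε * Y / Real.log X ^ 2 := by
  obtain ⟨r0, hr0, h⟩ := Pool.Agent.Y751.SW.tuple_full {0, 2} ⟨0, by simp⟩ adm R P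
    (fun _ _ hp => hp.1) 2 (by rfl) (fun r m _ hm => hm) (fun r m _ h1 h2 => ⟨h1, h2⟩) θ hθ hθ1
  refine ⟨r0, hr0, fun r hr => ⟨?_, h r hr⟩⟩
  rintro M p ⟨m, _, hpm, hp2⟩ h hh q hq hdv
  have hp : p.Prime := by
    rw [hpm]
    exact Nat.prime_nth_prime _
  have h2 : 2 ≤ p := hp.two_le
  have hph : (p + h).Prime := by
    simp only [mem_insert, mem_singleton] at hh
    rcases hh with rfl | rfl
    · exact hp
    · exact hp2
  rw [(Nat.prime_dvd_prime_iff_eq hq hph).1 hdv]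
  exact Pool.Agent.TH977.PW.rpow_lt_of_le r p (p + h) (hr0.trans hr) h2 (by omega)

end Pool.Agent.Results.MP_be93de_nt.AllWindowsAllSubsets
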