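import Mathlib
import Pool.Agent.Y863.IA.Main

/-!
# Almost all even differences of primes with prescribed indices modulo `w`

Q1 and Q2 ask for primes `p_(kn)` whose index is a multiple of `n` such that `p_(kn) + 2` is prime. Here: for every
modulus `w` there is `J` such that for all residues `r, r'` the following holds for all `k` outside of a set of
upper Banach density zero: one of the numbers `h = 2 k, 4 k, 6 k` (or `8 k`, if `3 ∤ k`) has the property that for
some `1 ≤ s ≤ J` and for every `l` there are `C` and arbitrarily large `x` for which a difference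
`1 ≤ D ≤ (log x) ^ C` exists with: for at least `x / (log x) ^ C` integers `n ≤ x` each of the `l` numbers
`n, n + D, ..., n + (l-1) D` is a prime `p_i` with `i ≡ r (mod w)` for which `p_i + h = p_(i+s)` and
`i + s ≡ r' (mod w)`.

Proof: helper827's block theorem (`Pool.Agent.Y827.RO.blockE`, the coloured Maynard-Tao theorem with the constant
`18 / 5 < 4`, one exact set of prime forms) is applied to FOUR classes, each of them divided into `36 w + 1`
subclasses: two of the four classes must contain at least `w` primes each. By the density Hales-Jewett theorem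
(`Pool.Agent.Y863.AA.msz`) the exceptional `k` of a dense set contain a long progression with centre `c` whose
difference is divisible by many primes, and the class `g` consists of the shifts
`2 (g c + 12 l P i)` (`g = 0, 1, 2, 3` or `0, 1, 3, 4`), so that all the differences between different classes are
`2 j k` with `k` exceptional and `j ≤ 3` (`j ≤ 4`).
-/

set_option autoImplicit false

namespace Pool.Agent.Results.MP_be93de_nt.AlmostAllIndexClasses

open Filter Finset

/-- the `m`-th prime: `p 1 = 2`, `p 2 = 3`, `p 3 = 5`, and so on -/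
noncomputable def p (m : ℕ) : ℕ := Nat.nth Nat.Prime (m - 1)

open Classical in
/-- the number of `1 ≤ n ≤ x` such that each of the `l` numbers `n' = n, n + D, ..., n + (l - 1) D` is a prime
`p i` with `i ≡ r` modulo `w` for which `p i + h = p (i + s)` and `i + s ≡ r'` modulo `w` -/
noncomputable def starts (w r r' s h l D x : ℕ) : ℕ :=
  ((Icc 1 x).filter (fun n : ℕ => ∀ j < l, ∃ i : ℕ, 1 ≤ i ∧ i ≡ r [MOD w] ∧ i + s ≡ r' [MOD w] ∧
    p i = n + j * D ∧ p (i + s) = n + j * D + h)).card

/-- `h` is the difference of many pairs `p i, p (i + s)` with `s ≤ J`, `i ≡ r` and `i + s ≡ r'` modulo `w`, along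
progressions of any length with small difference -/
def Good (w r r' J h : ℕ) : Prop :=
  ∃ s : ℕ, 1 ≤ s ∧ s ≤ J ∧ ∀ l : ℕ, ∃ C : ℕ, ∃ᶠ x : ℕ in atTop, ∃ D : ℕ, 1 ≤ D ∧
    (D : ℝ) ≤ (Real.log x) ^ C ∧ (x : ℝ) / (Real.log x) ^ C ≤ (starts w r r' s h l D x : ℝ)

/-- `3` if `3 ∣ k`, otherwise `4` -/
def R (k : ℕ) : ℕ := if 3 ∣ k then 3 else 4

theorem good_of (w r r' J h : ℕ) (hI : Pool.Agent.Y827.IX.IG w r r' J h) : Good w r r' J h := by
  classical
  obtain ⟨s, h3, h4, h5⟩ := hI
  have h5' : Pool.Agent.Y827.RO.Nar (fun n' : ℕ => ∃ i : ℕ, 1 ≤ i ∧ i ≡ r [MOD w] ∧ i + s ≡ r' [MOD w] ∧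
      p i = n' ∧ p (i + s) = n' + h) := by
    refine h5.mono ?_
    rintro n' ⟨g1, g2, g3, g4, g5⟩
    have e1 : Nat.primeCounting n' - 1 = Nat.count Nat.Prime n' := by
      have : Nat.primeCounting n' = Nat.count Nat.Prime (n' + 1) := rfl
      rw [this, Nat.count_succ, if_pos g1, Nat.add_sub_cancel]
    have e2 : Nat.primeCounting (n' + h) - 1 = Nat.count Nat.Prime (n' + h) := by
      have : Nat.primeCounting (n' + h) = Nat.count Nat.Prime (n' + h + 1) := rfl
      rw [this, Nat.count_succ, if_pos g2, Nat.add_sub_cancel]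
    have e3 : 1 ≤ Nat.primeCounting n' := by
      have : Nat.primeCounting n' = Nat.count Nat.Prime (n' + 1) := rfl
      rw [this, Nat.count_succ, if_pos g1]
      exact Nat.le_add_left _ _
    refine ⟨Nat.primeCounting n', e3, g3, ?_, ?_, ?_⟩
    · rw [← g5]; exact g4
    · unfold p
      rw [e1, Nat.nth_count g1]
    · unfold p
      rw [← g5, e2, Nat.nth_count g2]
  refine ⟨s, h3, h4, fun l => ?_⟩
  obtain ⟨C, hC⟩ := h5' l
  refine ⟨C, hC.mono ?_⟩
  rintro x ⟨D, h6, h7, h8⟩
  refine ⟨D, h6, h7, h8.trans (le_of_eq ?_)⟩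
  unfold starts
  congr!

theorem result (w : ℕ) (hw : 0 < w) : ∃ J : ℕ, ∀ ε : ℝ, 0 < ε → ∃ L : ℕ, ∀ r r' T : ℕ, L ≤ T →
    ∀ u : ℕ, ({k : ℕ | (u < k ∧ k ≤ u + T) ∧ ∀ j : ℕ, 1 ≤ j → j ≤ R k →
      ¬ Good w r r' J (2 * (j * k))}.ncard : ℝ) ≤ ε * T := by
  obtain ⟨J, hJ⟩ := Pool.Agent.Y863.IA.core w hw
  refine ⟨J, fun ε hε => ?_⟩
  obtain ⟨L, hL⟩ := hJ ε hε
  refine ⟨L, fun r r' T hT u => le_trans ?_ (hL r r' T hT u)⟩
  rw [Nat.cast_le]
  apply Set.ncard_le_ncard
  · rintro k ⟨h1, h2⟩
    exact ⟨h1, fun j hj1 hj2 hI => h2 j hj1 hj2 (good_of _ _ _ _ _ hI)⟩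
  · exact (Set.finite_Icc 0 (u + T)).subset fun k hk => ⟨Nat.zero_le _, hk.1.2⟩

end Pool.Agent.Results.MP_be93de_nt.AlmostAllIndexClasses
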