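import Mathlib
import Pool.Agent.Y827.IX.Ind

/-!
# Pairs of primes with a prescribed difference and prescribed indices modulo `w`

Q1 and Q2 ask for primes `p_(kn)` whose index is a multiple of `n` such that `p_(kn) + 2` is prime. Here: let
`w ≥ 1` and `ε > 0`. There is `J` such that for all residues `r, r'` there is `M` such that for EVERY multiple `N`
of `M`, in every sufficiently long window at least a proportion `5/9 - ε` of the `k` are such that for the
difference `h = N k` there is `1 ≤ s ≤ J` such that for every `l` there are `C` and arbitrarily large `x` for which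
a difference `1 ≤ D ≤ (log x) ^ C` exists with: for at least `x / (log x) ^ C` integers `n ≤ x` each of the `l`
numbers `n, n + D, ..., n + (l-1) D` is a prime `p_i` with `i ≡ r (mod w)` for which `p_i + h = p_(i+s)` and
`i + s ≡ r' (mod w)`.

Proof: in the coloured Maynard-Tao theorem with the constant `18 / 5` (one exact set of prime forms,
`Pool.Agent.Y827.RO.blockE`) every class is divided into many subclasses, so that more than `5/18 - ε` of the
classes contain at least `w` primes; if the classes are separated in the order of the integers, these `w` primes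
are consecutive in the block and their indices run through all residue classes modulo `w`. The starts of the blocks
are coloured by the index of their first prime modulo `w`; van der Waerden's theorem keeps the narrow progressions.
Finally helper142's theorem on sets of differences of many classes (`Pool.Agent.W142.TB.s_maiB`).
-/

set_option autoImplicit false

namespace Pool.Agent.Results.MP_be93de_nt.IndexClasses

open Filter Finset

/-- the `m`-th prime: `p 1 = 2`, `p 2 = 3`, `p 3 = 5`, and so on -/
noncomputable def p (m : ℕ) : ℕ := Nat.nth Nat.Prime (m - 1)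

open Classical in
/-- the number of `1 ≤ n ≤ x` such that each of the `l` numbers `n' = n, n + D, ..., n + (l - 1) D` is a prime
`p i` with `i ≡ r` modulo `w` for which `p i + h = p (i + s)` and `i + s ≡ r'` modulo `w` -/
noncomputable def starts (w r r' s h l D x : ℕ) : ℕ :=
  ((Icc 1 x).filter (fun n : ℕ => ∀ j < l, ∃ i : ℕ, 1 ≤ i ∧ i ≡ r [MOD w] ∧ i + s ≡ r' [MOD w] ∧
    p i = n + j * D ∧ p (i + s) = n + j * D + h)).card

/-- `h` is the difference of many pairs `p i, p (i + s)` with `s ≤ J`, `i ≡ r` and `i + s ≡ r'` modulo `w`, along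
progressions of any length with small difference -/
def Good (w r r' J h : ℕ) : Prop :=
  ∃ s : ℕ, 1 ≤ s ∧ s ≤ J ∧ ∀ l : ℕ, ∃ C : ℕ, ∃ᶠ x : ℕ in atTop, ∃ D : ℕ, 1 ≤ D ∧
    (D : ℝ) ≤ (Real.log x) ^ C ∧ (x : ℝ) / (Real.log x) ^ C ≤ (starts w r r' s h l D x : ℝ)

theorem result (w : ℕ) (hw : 0 < w) (ε : ℝ) (hε : 0 < ε) : ∃ J : ℕ, ∀ r r' : ℕ,
    ∃ M : ℕ, 0 < M ∧ ∀ N : ℕ, 0 < N → M ∣ N → ∃ L : ℕ, ∀ T : ℕ, L ≤ T → ∀ u : ℕ,
      (5 / 9 - ε) * (T : ℝ) ≤ ({k : ℕ | u < k ∧ k ≤ u + T ∧ Good w r r' J (N * k)}.ncard : ℝ) := by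
  classical
  obtain ⟨J, hJ⟩ := Pool.Agent.Y827.IX.idxWin ε hε w hw
  refine ⟨J, fun r r' => ?_⟩
  obtain ⟨M, hM, h⟩ := hJ r r'
  refine ⟨M, hM, fun N hN hd => ?_⟩
  obtain ⟨L, hL⟩ := h N hN hd
  refine ⟨L, fun T hT u => (hL T hT u).trans ?_⟩
  rw [Nat.cast_le]
  apply Set.ncard_le_ncard
  · rintro k ⟨h1, h2, s, h3, h4, h5⟩
    have h5' : Pool.Agent.Y827.RO.Nar (fun n' : ℕ => ∃ i : ℕ, 1 ≤ i ∧ i ≡ r [MOD w] ∧ i + s ≡ r' [MOD w] ∧
        p i = n' ∧ p (i + s) = n' + N * k) := by
      refine h5.mono ?_
      rintro n' ⟨g1, g2, g3, g4, g5⟩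
      have e1 : Nat.primeCounting n' - 1 = Nat.count Nat.Prime n' := by
        have : Nat.primeCounting n' = Nat.count Nat.Prime (n' + 1) := rfl
        rw [this, Nat.count_succ, if_pos g1, Nat.add_sub_cancel]
      have e2 : Nat.primeCounting (n' + N * k) - 1 = Nat.count Nat.Prime (n' + N * k) := by
        have : Nat.primeCounting (n' + N * k) = Nat.count Nat.Prime (n' + N * k + 1) := rfl
        rw [this, Nat.count_succ, if_pos g2, Nat.add_sub_cancel]
      have e3 : 1 ≤ Nat.primeCounting n' := by
        have : Nat.primeCounting n' = Nat.count Nat.Prime (n' + 1) := rfl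
        rw [this, Nat.count_succ, if_pos g1]
        exact Nat.le_add_left _ _
      refine ⟨Nat.primeCounting n', e3, g3, ?_, ?_, ?_⟩
      · rw [← g5]; exact g4
      · unfold p
        rw [e1, Nat.nth_count g1]
      · unfold p
        rw [← g5, e2, Nat.nth_count g2]
    refine ⟨h1, h2, s, h3, h4, fun l => ?_⟩
    obtain ⟨C, hC⟩ := h5' l
    refine ⟨C, hC.mono ?_⟩
    rintro x ⟨D, h6, h7, h8⟩
    refine ⟨D, h6, h7, h8.trans (le_of_eq ?_)⟩
    unfold starts
    congr!
  · exact (Set.finite_Icc 0 (u + T)).subset fun k hk => ⟨Nat.zero_le _, hk.2.1⟩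

end Pool.Agent.Results.MP_be93de_nt.IndexClasses
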